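import Pool.Agent.H23.CM4.Targets

/-!
# Finite sets of ideals
-/

set_option autoImplicit false

open NumberField MeasureTheory Set Filter Complex
open scoped nonZeroDivisors Real

namespace Pool.Agent.H94.CM4

open Pool.Agent.H23.CM4 Pool.Agent.H65.CM4

theorem jdm_fin (k : Type) [Field k] [NumberField k] (x : ℝ) (S : Set (Ideal (𝓞 k)))
    (hS : ∀ I ∈ S, nm I ≤ x) : S.Finite := by
  refine (Ideal.finite_setOfPred_absNorm_le (S := 𝓞 k) ⌊x⌋₊).subset ?_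
  intro I hI
  exact Nat.le_floor (hS I hI)

theorem jdm_one (k : Type) [Field k] [NumberField k] (I : Ideal (𝓞 k)) (hI : I ≠ ⊥) :
    1 ≤ nm I := by
  have h : Ideal.absNorm I ≠ 0 := fun h => hI (Ideal.absNorm_eq_zero_iff.1 h)
  show (1 : ℝ) ≤ (Ideal.absNorm I : ℝ)
  exact_mod_cast Nat.one_le_iff_ne_zero.2 h

theorem jdm_nr (k : Type) [Field k] [NumberField k] (K : Type) [Field K] [NumberField K]
    [Algebra k K] (I : Ideal (𝓞 k)) :
    {J : (Ideal (𝓞 K))⁰ | Ideal.relNorm (𝓞 k) (J : Ideal (𝓞 K)) = I}.Finite := by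
  have h1 : {J : Ideal (𝓞 K) | nm J ≤ nm I}.Finite := jdm_fin K (nm I) _ fun J hJ => hJ
  refine Set.Finite.of_finite_image (f := fun J : (Ideal (𝓞 K))⁰ => (J : Ideal (𝓞 K)))
    (h1.subset ?_) (fun a _ b _ h => Subtype.ext h)
  rintro J ⟨J', hJ', rfl⟩
  show (Ideal.absNorm (J' : Ideal (𝓞 K)) : ℝ) ≤ (Ideal.absNorm I : ℝ)
  rw [← (hJ' : Ideal.relNorm (𝓞 k) (J' : Ideal (𝓞 K)) = I), Ideal.absNorm_relNorm]

theorem pf_JDM : T_JDM := by
  intro k _ _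
  refine ⟨fun x I => ?_, fun b x I => ?_, jdm_one k, fun I I' => ?_, ?_⟩
  · have h : {I : Ideal (𝓞 k) | I ≠ ⊥ ∧ nm I ≤ x}.Finite := jdm_fin k x _ fun I hI => hI.2
    unfold Jd
    rw [dif_pos h, Set.Finite.mem_toFinset]
    rfl
  · have h : {I : Ideal (𝓞 k) | I ≠ ⊥ ∧ Squarefree I ∧ I ⊔ Ideal.span {(b : 𝓞 k)} = ⊤ ∧
        nm I ≤ x}.Finite := jdm_fin k x _ fun I hI => hI.2.2.2
    unfold Sq
    rw [dif_pos h, Set.Finite.mem_toFinset]
    rfl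
  · show (Ideal.absNorm (I * I') : ℝ) = (Ideal.absNorm I : ℝ) * (Ideal.absNorm I' : ℝ)
    rw [map_mul]
    push_cast
    rfl
  · intro K _ _ _ I J
    unfold Nr
    rw [dif_pos (jdm_nr k K I), Set.Finite.mem_toFinset]
    rfl

end Pool.Agent.H94.CM4
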